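import Pool.Agent.K7.H7.MO.Tab

set_option autoImplicit false

/-!
# Job 6 of the project on `M̄_{0,n+1}` (MP_6b5a33_co)

The recursion determines the coefficients, and those of `G 120` are not log-concave.
-/

open Finset

namespace Pool.Agent.K7.H7.MO

open Pool.Agent.K7.H68.MO (Job6)

lemma sumTo_eq (f : ℕ → ℕ) (m : ℕ) : sumTo f m = ∑ k ∈ range m, f k := by
  induction m with
  | zero => rfl
  | succ m ih => rw [sum_range_succ, ← ih]; rfl

lemma allTo_spec (f : ℕ → Bool) (m : ℕ) (h : allTo f m = true) : ∀ k < m, f k = true := by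
  induction m with
  | zero => intro k hk; omega
  | succ m ih =>
    intro k hk
    have h' : (f m && allTo f m) = true := h
    rw [Bool.and_eq_true] at h'
    rcases Nat.lt_succ_iff_lt_or_eq.mp hk with h1 | rfl
    · exact ih h'.2 k h1
    · exact h'.1

/-- the right hand sides of the recursion in coordinates -/
def E (w : ℕ → ℚ) (g t : ℕ → ℕ → ℚ) (n i : ℕ) : ℚ :=
  ∑ b ∈ range n, w (b + 1) * ∑ j ∈ range i, t (b + 1) (j + 1) *
    ∑ k ∈ range (n / (b + 1)), g (n - (k + 1) * (b + 1)) (i - 1 - j)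

/-- the table, as rational numbers -/
noncomputable def gq (n i : ℕ) : ℚ := gh n i / DD
noncomputable def tq (n i : ℕ) : ℚ := th n i / DD

lemma DD_ne : (DD : ℚ) ≠ 0 := by
  have : DD ≠ 0 := by decide +kernel
  exact_mod_cast this

lemma E_scale (w : ℕ → ℚ) (n i : ℕ) : E w gq tq n i =
    (∑ b ∈ range n, w (b + 1) * ∑ j ∈ range i, (th (b + 1) (j + 1) : ℚ) *
      ∑ k ∈ range (n / (b + 1)), (gh (n - (k + 1) * (b + 1)) (i - 1 - j) : ℚ)) /
        ((DD : ℚ) * DD) := by
  have hD := DD_ne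
  rw [E, sum_div]
  refine sum_congr rfl fun b _ => ?_
  rw [mul_div_assoc]
  congr 1
  rw [sum_div]
  refine sum_congr rfl fun j _ => ?_
  simp only [gq, tq]
  rw [← sum_div]
  field_simp

lemma table (n : ℕ) (h1 : 1 ≤ n) (hn : n ≤ 120) (i : ℕ) (hi : i < 4) :
    (n : ℚ) * gq n i = E (fun b => b) gq tq n i ∧
      (2 ≤ n → 2 * gq n i = E (fun _ => 1) gq tq n i) := by
  obtain ⟨m, rfl⟩ : ∃ m, n = m + 1 := ⟨n - 1, by omega⟩
  have h := allTo_spec _ _ chk_all m (by omega)
  have h2 := allTo_spec _ _ h i hi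
  rw [Bool.and_eq_true, Bool.or_eq_true] at h2
  obtain ⟨h3, h4⟩ := h2
  have h3' := Nat.eq_of_beq_eq_true h3
  have hD := DD_ne
  rw [E_scale, E_scale]
  constructor
  · rw [R1, sumTo_eq] at h3'
    simp only [P, S, sumTo_eq] at h3'
    have h5 := congrArg (fun x : ℕ => (x : ℚ)) h3'
    push_cast at h5 ⊢
    rw [← h5, gq]
    field_simp
  · intro h6
    have h8 : Nat.beq (DD * (2 * gh (m + 1) i)) (R2 (m + 1) i) = true := by
      rcases h4 with h4 | h4
      · have := Nat.eq_of_beq_eq_true h4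
        omega
      · exact h4
    have h3' := Nat.eq_of_beq_eq_true h8
    rw [R2, sumTo_eq] at h3'
    simp only [P, S, sumTo_eq] at h3'
    have h5 := congrArg (fun x : ℕ => (x : ℚ)) h3'
    push_cast at h5 ⊢
    simp only [one_mul]
    rw [← h5, gq]
    field_simp

/-- the last term of the recursion -/
lemma E_last (w : ℕ → ℚ) (g t : ℕ → ℕ → ℚ) (m i : ℕ) (h0 : g 0 0 = 1)
    (h0' : ∀ l, l + 1 < 4 → g 0 (l + 1) = 0) (hi : i + 1 < 4) :
    E w g t (m + 1) (i + 1) = (∑ b ∈ range m, w (b + 1) * ∑ j ∈ range (i + 1), t (b + 1) (j + 1) *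
    ∑ k ∈ range ((m + 1) / (b + 1)), g (m + 1 - (k + 1) * (b + 1)) (i + 1 - 1 - j)) +
      w (m + 1) * t (m + 1) (i + 1) := by
  rw [E, sum_range_succ]
  congr 1
  rw [Nat.div_self (Nat.succ_pos m)]
  simp only [range_one, sum_singleton, zero_add, one_mul, Nat.sub_self]
  rw [sum_range_succ]
  have h1 : i + 1 - 1 - i = 0 := by omega
  rw [h1, h0, mul_one, sum_eq_zero, zero_add]
  intro j hj
  rw [mem_range] at hj
  obtain ⟨l, hl⟩ : ∃ l, i + 1 - 1 - j = l + 1 := ⟨i - 1 - j, by omega⟩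
  rw [hl, h0' l (by omega), mul_zero]

lemma unique (g t g' t' : ℕ → ℕ → ℚ) (h0 : g 0 0 = 1) (h0' : ∀ l, l + 1 < 4 → g 0 (l + 1) = 0)
    (k0 : g' 0 0 = 1) (k0' : ∀ l, l + 1 < 4 → g' 0 (l + 1) = 0)
    (hc : ∀ n, 1 ≤ n → n ≤ 120 → g n 0 = g' n 0)
    (h1 : ∀ i < 4, g 1 i = g' 1 i ∧ t 1 i = t' 1 i)
    (hE : ∀ n : ℕ, 1 ≤ n → n ≤ 120 → ∀ i < 4, (n : ℚ) * g n i = E (fun b => b) g t n i ∧
      (2 ≤ n → 2 * g n i = E (fun _ => 1) g t n i))
    (kE : ∀ n : ℕ, 1 ≤ n → n ≤ 120 → ∀ i < 4, (n : ℚ) * g' n i = E (fun b => b) g' t' n i ∧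
      (2 ≤ n → 2 * g' n i = E (fun _ => 1) g' t' n i)) :
    ∀ n ≤ 120, (∀ i < 4, g n i = g' n i) ∧ (1 ≤ n → ∀ i, i + 1 < 4 → t n (i + 1) = t' n (i + 1)) := by
  intro n
  induction n using Nat.strong_induction_on with
  | _ n ih =>
  intro hn
  rcases Nat.lt_or_ge n 2 with h2 | h2
  · interval_cases n
    · refine ⟨?_, by omega⟩
      intro i hi
      rcases i with _ | i
      · rw [h0, k0]
      · rw [h0' i hi, k0' i hi]
    · exact ⟨fun i hi => (h1 i hi).1, fun _ i hi => (h1 (i + 1) hi).2⟩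
  · obtain ⟨m, rfl⟩ : ∃ m, n = m + 1 := ⟨n - 1, by omega⟩
    have key : ∀ i, i + 1 < 4 → g (m + 1) (i + 1) = g' (m + 1) (i + 1) ∧
        t (m + 1) (i + 1) = t' (m + 1) (i + 1) := by
      intro i hi
      have hsum : ∀ w : ℕ → ℚ, (∑ b ∈ range m, w (b + 1) * ∑ j ∈ range (i + 1),
          t (b + 1) (j + 1) * ∑ k ∈ range ((m + 1) / (b + 1)),
            g (m + 1 - (k + 1) * (b + 1)) (i + 1 - 1 - j)) =
          ∑ b ∈ range m, w (b + 1) * ∑ j ∈ range (i + 1), t' (b + 1) (j + 1) *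
            ∑ k ∈ range ((m + 1) / (b + 1)), g' (m + 1 - (k + 1) * (b + 1)) (i + 1 - 1 - j) := by
        intro w
        refine sum_congr rfl fun b hb => ?_
        rw [mem_range] at hb
        congr 1
        refine sum_congr rfl fun j hj => ?_
        rw [mem_range] at hj
        rw [(ih (b + 1) (by omega) (by omega)).2 (by omega) j (by omega)]
        congr 1
        refine sum_congr rfl fun k _ => ?_
        have h3 : m + 1 - (k + 1) * (b + 1) < m + 1 := by
          have : 1 ≤ (k + 1) * (b + 1) := Nat.mul_pos (Nat.succ_pos _) (Nat.succ_pos _)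
          omega
        exact (ih _ h3 (by omega)).1 _ (by omega)
      obtain ⟨e1, e2⟩ := hE (m + 1) (by omega) hn (i + 1) hi
      obtain ⟨f1, f2⟩ := kE (m + 1) (by omega) hn (i + 1) hi
      have e2 := e2 h2
      have f2 := f2 h2
      rw [E_last _ g t m i h0 h0' hi] at e1 e2
      rw [hsum (fun b => (b : ℚ))] at e1
      rw [hsum (fun _ => (1 : ℚ))] at e2
      rw [E_last _ g' t' m i k0 k0' hi] at f1 f2
      have hm : ((m : ℚ) + 1) ≠ 0 := by positivity
      push_cast at e1 f1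
      have d1 : ((m : ℚ) + 1) * ((g (m + 1) (i + 1) - g' (m + 1) (i + 1)) -
          (t (m + 1) (i + 1) - t' (m + 1) (i + 1))) = 0 := by linear_combination e1 - f1
      have d1' := (mul_eq_zero.mp d1).resolve_left hm
      have d2 : 2 * (g (m + 1) (i + 1) - g' (m + 1) (i + 1)) =
          t (m + 1) (i + 1) - t' (m + 1) (i + 1) := by linear_combination e2 - f2
      constructor
      · linarith
      · linarith
    refine ⟨?_, fun _ i hi => (key i hi).2⟩
    intro i hi
    rcases i with _ | i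
    · exact hc (m + 1) (by omega) hn
    · exact (key i hi).1

section poly

open Polynomial

variable {G T : ℕ → Polynomial ℚ}

lemma sum_b {M : Type} [AddCommMonoid M] (n : ℕ) (F : ℕ → M) :
    ∑ b ∈ Icc 1 n, F b = ∑ b ∈ range n, F (b + 1) := by
  rw [range_eq_Ico, Finset.sum_Ico_add' F 0 n 1]
  rfl

lemma sum_k {M : Type} [AddCommMonoid M] (n b : ℕ) (hb : 1 ≤ b) (F : ℕ → M) :
    ∑ k ∈ Icc 1 n with k * b ≤ n, F k = ∑ k ∈ range (n / b), F (k + 1) := by
  rw [← sum_b (n / b) F]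
  refine sum_congr ?_ fun _ _ => rfl
  ext k
  simp only [mem_filter, mem_Icc]
  rw [Nat.le_div_iff_mul_le hb]
  constructor
  · rintro ⟨⟨h1, _⟩, h3⟩; exact ⟨h1, h3⟩
  · rintro ⟨h1, h3⟩
    refine ⟨⟨h1, ?_⟩, h3⟩
    calc k = k * 1 := (mul_one k).symm
      _ ≤ k * b := Nat.mul_le_mul_left k hb
      _ ≤ n := h3

/-- the constant coefficients vanish -/
lemma const
    (H1 : ∀ n : ℕ, 1 ≤ n → (n : ℚ) • G n = ∑ b ∈ Icc 1 n, ∑ k ∈ Icc 1 n with k * b ≤ n,
      (b : ℚ) • (T b * G (n - k * b)))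
    (H2 : ∀ n : ℕ, 2 ≤ n → (2 : ℚ) • G n = ∑ b ∈ Icc 1 n, ∑ k ∈ Icc 1 n with k * b ≤ n,
      T b * G (n - k * b))
    (G0 : G 0 = 1) (G1 : G 1 = X) (T1 : T 1 = X) :
    ∀ n, 1 ≤ n → (G n).coeff 0 = 0 ∧ (T n).coeff 0 = 0 := by
  intro n
  induction n using Nat.strong_induction_on with
  | _ n ih =>
  intro hn
  rcases Nat.lt_or_ge n 2 with h2 | h2
  · have : n = 1 := by omega
    subst this
    rw [G1, T1]
    simp
  · obtain ⟨m, rfl⟩ : ∃ m, n = m + 1 := ⟨n - 1, by omega⟩
    have e1 := congrArg (fun p : Polynomial ℚ => p.coeff 0) (H1 (m + 1) hn)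
    have e2 := congrArg (fun p : Polynomial ℚ => p.coeff 0) (H2 (m + 1) h2)
    simp only [finsetSum_coeff, coeff_smul, mul_coeff_zero, smul_eq_mul] at e1 e2
    rw [sum_b, sum_range_succ, sum_eq_zero, zero_add, sum_k _ _ (by omega),
      Nat.div_self (Nat.succ_pos m)] at e1 e2
    · simp only [range_one, sum_singleton, zero_add, one_mul, Nat.sub_self, G0, coeff_one_zero,
        mul_one] at e1 e2
      have hm : (((m + 1 : ℕ) : ℚ)) ≠ 0 := by positivity
      have e3 := mul_left_cancel₀ hm e1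
      rw [← e3] at e2
      have e4 : (G (m + 1)).coeff 0 = 0 := by linarith
      exact ⟨e4, by rw [← e3, e4]⟩
    · intro b hb
      rw [mem_range] at hb
      refine sum_eq_zero fun k _ => ?_
      rw [(ih (b + 1) (by omega) (by omega)).2]
      simp
    · intro b hb
      rw [mem_range] at hb
      refine sum_eq_zero fun k _ => ?_
      rw [(ih (b + 1) (by omega) (by omega)).2]
      simp

lemma coeff_rec (w : ℕ → ℚ) (hT : ∀ n, 1 ≤ n → (T n).coeff 0 = 0) (n i : ℕ) :
    (∑ b ∈ Icc 1 n, ∑ k ∈ Icc 1 n with k * b ≤ n, w b • (T b * G (n - k * b))).coeff i =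
      E w (fun n i => (G n).coeff i) (fun n i => (T n).coeff i) n i := by
  rw [E, sum_b]
  simp only [finsetSum_coeff]
  refine sum_congr rfl fun b _ => ?_
  rw [sum_k _ _ (by omega)]
  simp only [coeff_smul, smul_eq_mul]
  rw [← mul_sum]
  congr 1
  simp only [mul_sum]
  rw [sum_comm]
  refine sum_congr rfl fun k _ => ?_
  rw [coeff_mul, Finset.Nat.sum_antidiagonal_eq_sum_range_succ
    (fun j l => (T (b + 1)).coeff j * (G (n - (k + 1) * (b + 1))).coeff l), sum_range_succ',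
    hT (b + 1) (by omega), zero_mul, add_zero]
  refine sum_congr rfl fun j _ => ?_
  have : i - (j + 1) = i - 1 - j := by omega
  rw [this]

end poly

theorem job6 : Job6 := by
  intro G T H1 H2 G0 G1 T1
  have hc := const H1 H2 G0 G1 T1
  have hT : ∀ n, 1 ≤ n → (T n).coeff 0 = 0 := fun n hn => (hc n hn).2
  have hE : ∀ n : ℕ, 1 ≤ n → n ≤ 120 → ∀ i < 4, (n : ℚ) * (G n).coeff i =
      E (fun b => b) (fun n i => (G n).coeff i) (fun n i => (T n).coeff i) n i ∧
      (2 ≤ n → 2 * (G n).coeff i =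
        E (fun _ => 1) (fun n i => (G n).coeff i) (fun n i => (T n).coeff i) n i) := by
    intro n hn _ i _
    constructor
    · rw [← coeff_rec (fun b => (b : ℚ)) hT n i, ← H1 n hn, Polynomial.coeff_smul, smul_eq_mul]
    · intro h2
      have h3 := coeff_rec (G := G) (T := T) (fun _ => (1 : ℚ)) hT n i
      simp only [one_smul] at h3
      rw [← h3, ← H2 n h2, Polynomial.coeff_smul, smul_eq_mul]
  have hD := DD_ne
  have hu := unique (fun n i => (G n).coeff i) (fun n i => (T n).coeff i) gq tq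
    (by simp only [G0, Polynomial.coeff_one_zero])
    (by intro l _; simp only [G0]; rw [Polynomial.coeff_one]; simp)
    (by simp only [gq]; rw [show gh 0 0 = DD from rfl, div_self hD])
    (by
      intro l hl
      simp only [gq]
      have : ∀ l < 3, gh 0 (l + 1) = 0 := by decide +kernel
      rw [this l (by omega)]
      simp)
    (by
      intro n hn _
      simp only [gq]
      have : gh n 0 = 0 := by
        obtain ⟨m, rfl⟩ : ∃ m, n = m + 1 := ⟨n - 1, by omega⟩
        rfl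
      rw [this, (hc n hn).1]
      simp)
    (by
      intro i hi
      simp only [G1, T1, gq, tq, Polynomial.coeff_X]
      have h1 : ∀ i < 4, gh 1 i = if 1 = i then DD else 0 := by decide +kernel
      have h2 : ∀ i < 4, th 1 i = if 1 = i then DD else 0 := by decide +kernel
      rw [h1 i hi, h2 i hi]
      split_ifs <;> simp [hD])
    hE (fun n h1 h2 i hi => table n h1 h2 i hi)
  obtain ⟨hu, -⟩ := hu 120 le_rfl
  have u1 : (G 120).coeff 1 = gq 120 1 := hu 1 (by norm_num)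
  have u2 : (G 120).coeff 2 = gq 120 2 := hu 2 (by norm_num)
  have u3 : (G 120).coeff 3 = gq 120 3 := hu 3 (by norm_num)
  rw [u1, u2, u3]
  have hlt : gh 120 2 ^ 2 < gh 120 1 * gh 120 3 := by decide +kernel
  have hlt' : ((gh 120 2 : ℕ) : ℚ) ^ 2 < gh 120 1 * gh 120 3 := by exact_mod_cast hlt
  have hDp : (0 : ℚ) < DD := lt_of_le_of_ne (Nat.cast_nonneg _) (Ne.symm hD)
  simp only [gq]
  rw [div_pow, div_mul_div_comm, pow_two (DD : ℚ)]
  exact div_lt_div_of_pos_right hlt' (by positivity)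

end Pool.Agent.K7.H7.MO
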